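import Pool.Agent.TMX.Stmts4

set_option autoImplicit false

namespace Pool.Agent.TMX.H27

open Finset
open Pool.Agent.Helper37_EM

theorem ch_trans {N : ℕ} {g : ℕ → ℝ} {p q : ℕ} {T₁ : ℝ} (h : Ch N g p q T₁) :
    ∀ (s : ℕ) (T₂ : ℝ), Ch N g q s T₂ → Ch N g p s (T₁ + T₂) := by
  induction h with
  | nil p =>
    intro s T₂ h2
    rw [zero_add]
    exact h2
  | cons p p' q Q T hlt hv _ ih =>
    intro s T₂ h2
    rw [add_assoc]
    exact Ch.cons p p' s Q (T + T₂) hlt hv (ih s T₂ h2)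

theorem ch_le {N : ℕ} {g : ℕ → ℝ} {p q : ℕ} {T : ℝ} (h : Ch N g p q T) : p ≤ q := by
  induction h with
  | nil p => exact le_rfl
  | cons p p' q Q T hlt hv _ ih => exact hlt.le.trans ih

theorem ch_gap {N : ℕ} {g : ℕ → ℝ} {p p' : ℕ} {Q : ℝ} (hlt : p < p') (hv : VG N g p p' Q) :
    Ch N g p p' (g p + g p' - 2 * Q) := by
  have := Ch.cons p p' p' Q 0 hlt hv (Ch.nil p')
  rwa [add_zero] at this

theorem gap_le_var {N : ℕ} {g : ℕ → ℝ} {p p' : ℕ} {Q : ℝ} (hlt : p < p') (hv : VG N g p p' Q) :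
    g p + g p' - 2 * Q ≤ var g p p' := by
  obtain ⟨w, hw, hmin⟩ := Finset.exists_min_image (Icc p p') g ⟨p, by simp [hlt.le]⟩
  rw [mem_Icc] at hw
  have h1 : g w ≤ Q := hv.i (g w) fun i h1 h2 => hmin i (mem_Icc.2 ⟨h1, h2⟩)
  have h2 := abs_le_var g hw.1
  have h3 := abs_le_var g hw.2
  have h4 := le_abs_self (g p - g w)
  have h5 := neg_abs_le (g w - g p')
  rw [var_add hw.1 hw.2]
  linarith

theorem ch_var {N : ℕ} {g : ℕ → ℝ} {p q : ℕ} {T : ℝ} (h : Ch N g p q T) : T ≤ var g p q := by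
  induction h with
  | nil p => simp [var]
  | cons p p' q Q T hlt hv hc ih =>
    rw [var_add hlt.le (ch_le hc)]
    have := gap_le_var hlt hv
    linarith

theorem ch_split {N : ℕ} {g : ℕ → ℝ} {p q : ℕ} {T : ℝ} (h : Ch N g p q T) :
    ∀ w : ℕ, p < w → w ≤ q → ∃ s t Q T₁ T₂, Ch N g p s T₁ ∧ s < w ∧ w ≤ t ∧
    VG N g s t Q ∧ Ch N g t q T₂ ∧ T = T₁ + (g s + g t - 2 * Q) + T₂ := by
  induction h with
  | nil p =>
    intro w h1 h2
    omega
  | cons p p' q Q T hlt hv hc ih =>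
    intro w h1 h2
    by_cases h : w ≤ p'
    · exact ⟨p, p', Q, 0, T, Ch.nil p, h1, h, hv, hc, by ring⟩
    · obtain ⟨s, t, Q', T₁, T₂, a1, a2, a3, a4, a5, a6⟩ := ih w (by omega) h2
      exact ⟨s, t, Q', (g p + g p' - 2 * Q) + T₁, T₂, Ch.cons p p' s Q T₁ hlt hv a1, a2, a3, a4, a5,
        by rw [a6]; ring⟩

theorem chB : ChB := by
  intro N g
  exact ⟨fun p q s T₁ T₂ h1 h2 => ch_trans h1 s T₂ h2, fun p q T h => ch_le h,
    fun p q T h => ch_var h, fun p q T w h h1 h2 => ch_split h w h1 h2,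
    fun p p' Q h1 h2 => ch_gap h1 h2⟩

end Pool.Agent.TMX.H27
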