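import Pool.Agent.TMX.Stmts5

set_option autoImplicit false

namespace Pool.Agent.TMX.H27

open Finset
open Pool.Agent.Helper51_Max (I IsMax)
open Pool.Agent.Helper37_EM (var)

theorem lL : LL := by
  intro hVBad hVPl hNC hChB N g M hM y z y' r c i j p p' v hB hp'y hpc hcp' hpp' hpv hvp'
  obtain ⟨geo, htop, hc1, hc2, hcy, hcy', hcmin, hi1, hi2, hi3, hi4, hj1, hj2, hj3, hj4⟩ := hB
  have hyz := geo.yz
  have hzy' := geo.zz
  have hrz := geo.rz
  have hrN := geo.rN
  have hMy := geo.My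
  have happ := (hChB N g).1
  have hone := (hChB N g).2.2.2.2
  have hbad : ∀ q q' : ℕ, q ≤ c → c ≤ q' → q' ≤ N → VG N g q q' (M y + M y' - M z) := by
    intro q q' h1 h2 h3
    exact hVBad N g M hM y z y' r c y y' q q' ⟨geo, htop, hc1, hc2, hcy, hcy', hcmin, geo, le_rfl,
      le_rfl, h1, h2, h3, Or.inl rfl, Or.inl rfl⟩
  rcases le_or_gt (M z) (M v) with hzv | hvz
  · exact ⟨M v, _, by linarith, hone p p' _ hpp' (hbad p p' hpc hcp' (by omega)), by ring⟩
  · by_cases hA : z ≤ v + r ∧ y' ≤ v + r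
    · have hgeo1 : Geo N g M v z y' r := ⟨by omega, hzy', hrz, hrN, hA.1, geo.hz, hA.2, geo.opt,
        hvz, geo.Mz⟩
      have hVG : VG N g p p' (M v + M y' - M z) :=
        hVBad N g M hM y z y' r c v y' p p' ⟨geo, htop, hc1, hc2, hcy, hcy', hcmin, hgeo1,
          by omega, le_rfl, hpc, hcp', by omega, Or.inr ⟨hpv, hvp'⟩, Or.inl rfl⟩
      exact ⟨M y, _, le_rfl, hone p p' _ hpp' hVG, by ring⟩
    · obtain ⟨s', hs1, hs2, hs3⟩ : ∃ s', v < s' ∧ s' < c ∧ M z ≤ g s' := by
        rcases Nat.lt_or_ge (v + r) z with h | h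
        · exact ⟨i, by omega, by omega, hi4.le⟩
        · obtain ⟨s', h1, h2, h3⟩ := hNC N g M hM v z y' r (by omega) hzy' hrz hrN h geo.hz
            (by
              by_contra h'
              exact hA ⟨h, not_lt.1 h'⟩) geo.opt hvz geo.Mz
          exact ⟨s', by omega, by omega, h3.le⟩
      have h1 := hone p s' (M v) (by omega)
        (hVPl N g M hM p s' v (M v) hpv (by omega) (by omega) le_rfl)
      have h2 := hone s' p' _ (by omega) (hbad s' p' (by omega) hcp' (by omega))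
      have h3 := happ _ _ _ _ _ h1 h2
      exact ⟨g s', _, by linarith, h3, by ring⟩

end Pool.Agent.TMX.H27
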