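import Pool.Agent.TMX.Stmts

/-!
# TMX, row Mon: `M` is monotone where `g` is, at the two ends
-/

set_option autoImplicit false

namespace Pool.Agent.TMX.H27

open Finset
open Pool.Agent.Helper51_Max (I IsMax)
open Pool.Agent.Helper37_EM (var)
open Pool.Agent.TMX

theorem avg_le {N : ℕ} {g M : ℕ → ℝ} {z r : ℕ} {c : ℝ} (hz : z ≤ N)
    (hr : M z * ((I N z r).card : ℝ) = ∑ i ∈ I N z r, g i) (h : ∀ i ∈ I N z r, g i ≤ c) :
    M z ≤ c := by
  have h1 : ∑ i ∈ I N z r, g i ≤ ∑ _i ∈ I N z r, c := sum_le_sum h
  rw [sum_const, nsmul_eq_mul, ← hr, mul_comm _ c] at h1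
  have h2 : (0 : ℝ) < ((I N z r).card : ℝ) := by
    exact_mod_cast Pool.Agent.Helper51_Max.card_I_pos r hz
  exact le_of_mul_le_mul_right h1 h2

theorem mon : Mon := by
  intro tan N g M hM
  obtain ⟨tanR, tanL⟩ := tan N g M hM
  refine ⟨fun k hk hu z z' _ hzz hzk => ?_, fun l hd z z' hl hzz hzN => ?_⟩
  · by_contra hc
    push Not at hc
    obtain ⟨r, hr⟩ := hM.attained z (by omega)
    have hgz : g z' ≤ M z' := Pool.Agent.Helper37_EM.g_le hM (by omega)
    by_cases h : z' ≤ z + r
    · obtain ⟨i, hi, h1, h2⟩ := tanR z z' r hzz (by omega) h hr hc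
      have h3 : g i ≤ g z' := hu i z' (Nat.zero_le _) (by omega) hzk
      linarith
    · have h4 : M z ≤ M z' := by
        refine avg_le (by omega) hr fun i hi => ?_
        unfold I at hi
        rw [mem_Icc] at hi
        have h3 : g i ≤ g z' := hu i z' (Nat.zero_le _) (by omega) hzk
        linarith
      linarith
  · by_contra hc
    push Not at hc
    obtain ⟨r, hr⟩ := hM.attained z' (by omega)
    have hgz : g z ≤ M z := Pool.Agent.Helper37_EM.g_le hM (by omega)
    by_cases h : z' ≤ z + r
    · obtain ⟨i, hi, h1, h2⟩ := tanL z' z r hzz (by omega) h hr hc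
      unfold I at hi
      rw [mem_Icc] at hi
      have h3 : g i ≤ g z := hd z i hl (by omega) (by omega)
      linarith
    · have h4 : M z' ≤ M z := by
        refine avg_le (by omega) hr fun i hi => ?_
        unfold I at hi
        rw [mem_Icc] at hi
        have h3 : g i ≤ g z := hd z i hl (by omega) (by omega)
        linarith
      linarith

end Pool.Agent.TMX.H27
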