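import Pool.Agent.TMX.Stmts2

set_option autoImplicit false

namespace Pool.Agent.TMX.H27

open Finset
open Pool.Agent.Helper37_EM

theorem var_nn (g : ℕ → ℝ) (a b : ℕ) : 0 ≤ var g a b := by
  unfold var
  exact sum_nonneg fun _ _ => abs_nonneg _

/-- one more step of a chain -/
theorem step_le (g : ℕ → ℝ) {a b c : ℕ} (hab : a ≤ b) (hbc : b ≤ c) :
    |g a - g b| + var g b c ≤ var g a c := by
  rw [var_add hab hbc]
  have := abs_le_var g hab
  linarith

theorem varC : VarC := by
  intro N g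
  refine ⟨?_, ?_⟩
  · intro α p₁ w₁ p₂ ω h1 h2 h3 h4 h5
    have e0 := step_le g (Nat.zero_le α) (by omega : α ≤ N)
    have e1 := step_le g h1 (by omega : p₁ ≤ N)
    have e2 := step_le g h2 (by omega : w₁ ≤ N)
    have e3 := step_le g h3 (by omega : p₂ ≤ N)
    have e4 := step_le g h4 h5
    have e5 := var_nn g ω N
    have a0 := abs_nonneg (g 0 - g α)
    have a1 := neg_abs_le (g α - g p₁)
    have a2 := le_abs_self (g p₁ - g w₁)
    have a3 := neg_abs_le (g w₁ - g p₂)
    have a4 := le_abs_self (g p₂ - g ω)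
    linarith
  · intro α p₁ w₁ p₂ w₂ p₃ ω h1 h2 h3 h4 h5 h6 h7
    have e0 := step_le g (Nat.zero_le α) (by omega : α ≤ N)
    have e1 := step_le g h1 (by omega : p₁ ≤ N)
    have e2 := step_le g h2 (by omega : w₁ ≤ N)
    have e3 := step_le g h3 (by omega : p₂ ≤ N)
    have e4 := step_le g h4 (by omega : w₂ ≤ N)
    have e5 := step_le g h5 (by omega : p₃ ≤ N)
    have e6 := step_le g h6 h7
    have e7 := var_nn g ω N
    have a0 := abs_nonneg (g 0 - g α)
    have a1 := neg_abs_le (g α - g p₁)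
    have a2 := le_abs_self (g p₁ - g w₁)
    have a3 := neg_abs_le (g w₁ - g p₂)
    have a4 := le_abs_self (g p₂ - g w₂)
    have a5 := neg_abs_le (g w₂ - g p₃)
    have a6 := le_abs_self (g p₃ - g ω)
    linarith

end Pool.Agent.TMX.H27
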